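import Mathlib

/-!
# Growth: invariant vectors in the kernel of an invariant matrix over a finite two-group

`M` is a matrix with rows `a × P` and columns `c × P` which is invariant under the left translations of the finite
two-group `P`, over a field of characteristic two. The dimension of the space of the row vectors which are killed by
`M` is at most `|C|` times the dimension of the subspace of the vectors which are invariant under the subgroup `C`.
-/

set_option autoImplicit false
set_option linter.unusedSectionVars false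

open Finset

namespace Pool.Agent.H20.GR

variable {K : Type} [Field K] {P : Type} [Group P] {a c : Type}

/-- `M` is invariant under left translations -/
def LInv (M : Matrix (a × P) (c × P) K) : Prop := ∀ (g : P) i p j q, M (i, g * p) (j, g * q) = M (i, p) (j, q)

/-- the vectors which are invariant under `C` -/
def invC (K : Type) [Field K] (a : Type) {P : Type} [Group P] (C : Subgroup P) : Submodule K (a × P → K) where
  carrier := {v | ∀ g ∈ C, ∀ i p, v (i, g * p) = v (i, p)}
  zero_mem' := fun _ _ _ _ => rfl
  add_mem' := by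
    intro v w hv hw g hg i p
    simp only [Pi.add_apply, hv g hg, hw g hg]
  smul_mem' := by
    intro k v hv g hg i p
    simp only [Pi.smul_apply, hv g hg]

variable [Fintype P] [Fintype a]

/-- the vectors which are invariant under `C` and killed by `M` -/
def kerC (M : Matrix (a × P) (c × P) K) (C : Subgroup P) : Submodule K (a × P → K) where
  carrier := {v | v ∈ invC K a C ∧ Matrix.vecMul v M = 0}
  zero_mem' := ⟨Submodule.zero_mem _, Matrix.zero_vecMul _⟩
  add_mem' := by
    rintro v w ⟨h1, h2⟩ ⟨h3, h4⟩
    exact ⟨Submodule.add_mem _ h1 h3, by rw [Matrix.add_vecMul, h2, h4, add_zero]⟩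
  smul_mem' := by
    rintro k v ⟨h1, h2⟩
    exact ⟨Submodule.smul_mem _ k h1, by rw [Matrix.smul_vecMul, h2, smul_zero]⟩

theorem mem_kerC {M : Matrix (a × P) (c × P) K} {C : Subgroup P} {v : a × P → K} :
    v ∈ kerC M C ↔ (∀ g ∈ C, ∀ i p, v (i, g * p) = v (i, p)) ∧ Matrix.vecMul v M = 0 := Iff.rfl

/-- left translation preserves the kernel -/
theorem trans_mem {M : Matrix (a × P) (c × P) K} (hM : LInv M) {v : a × P → K} (h : Matrix.vecMul v M = 0) (g : P) :
    Matrix.vecMul (fun x : a × P => v (x.1, g * x.2)) M = 0 := by
  funext y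
  have h1 := congrFun h (y.1, g * y.2)
  rw [Pi.zero_apply] at h1 ⊢
  rw [← h1]
  refine Fintype.sum_bijective (fun x : a × P => (x.1, g * x.2)) ⟨?_, ?_⟩ _ _ ?_
  · rintro ⟨i, p⟩ ⟨i', p'⟩ hx
    simp only [Prod.mk.injEq, mul_right_inj] at hx
    exact Prod.ext hx.1 hx.2
  · rintro ⟨i, p⟩
    exact ⟨(i, g⁻¹ * p), by simp⟩
  · rintro ⟨i, p⟩
    change v (i, g * p) * M (i, p) y = v (i, g * p) * M (i, g * p) (y.1, g * y.2)
    rw [hM]

/-- the sum with the left translate -/
def lT (K : Type) [Field K] (a : Type) {P : Type} [Group P] (g : P) : (a × P → K) →ₗ[K] (a × P → K) where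
  toFun v x := v x + v (x.1, g * x.2)
  map_add' v w := by
    funext x
    simp only [Pi.add_apply]
    abel
  map_smul' k v := by
    funext x
    simp [mul_add]

theorem step [CharP K 2] {M : Matrix (a × P) (c × P) K} (hM : LInv M) {C C' : Subgroup P} (hle : C ≤ C')
    (hc : Nat.card C' = 2 * Nat.card C) :
    Module.finrank K (kerC M C) ≤ 2 * Module.finrank K (kerC M C') := by
  have hpos : 0 < Nat.card C := Nat.card_pos
  -- an element outside
  obtain ⟨g, hg1, hg2⟩ : ∃ g ∈ C', g ∉ C := by
    by_contra hcon
    push Not at hcon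
    have : C = C' := le_antisymm hle hcon
    rw [this] at hc hpos
    omega
  have hidx : (C.subgroupOf C').index = 2 := by
    have h1 := (C.subgroupOf C').card_mul_index
    have h2 : Nat.card (C.subgroupOf C') = Nat.card C :=
      Nat.card_congr (Subgroup.subgroupOfEquivOfLe hle).toEquiv
    rw [h2, hc] at h1
    have h3 : Nat.card C * (C.subgroupOf C').index = Nat.card C * 2 := by rw [h1]; ring
    exact Nat.eq_of_mul_eq_mul_left hpos h3
  have hmul : ∀ x ∈ C', ∀ y ∈ C', x ∉ C → y ∉ C → x * y ∈ C := by
    intro x hx y hy hx' hy'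
    have := (Subgroup.mul_mem_iff_of_index_two hidx (a := ⟨x, hx⟩) (b := ⟨y, hy⟩))
    simp only [Subgroup.mem_subgroupOf] at this
    exact this.2 (by simp [hx', hy'])
  have hgi : g⁻¹ ∉ C := fun h => hg2 (by simpa using C.inv_mem h)
  have hnot : ∀ h ∈ C, g * h ∉ C := fun h hh h' => hg2 (by
    have := C.mul_mem h' (C.inv_mem hh)
    simpa using this)
  -- the norm maps into the invariants
  have hmaps : ∀ v ∈ kerC M C, lT K a g v ∈ kerC M C' := by
    rintro v ⟨h2, h1⟩
    refine ⟨fun h hh i p => ?_, ?_⟩
    · change v (i, h * p) + v (i, g * (h * p)) = v (i, p) + v (i, g * p)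
      by_cases hH : h ∈ C
      · rw [h2 h hH]
        have h3 : g * h * g⁻¹ ∈ C := hmul _ (C'.mul_mem hg1 hh) _ (C'.inv_mem hg1) (hnot h hH) hgi
        have h4 : g * (h * p) = g * h * g⁻¹ * (g * p) := by group
        rw [h4, h2 _ h3]
      · have h3 : h * g⁻¹ ∈ C := hmul _ hh _ (C'.inv_mem hg1) hH hgi
        have h4 : h * p = h * g⁻¹ * (g * p) := by group
        have h5 : g * h ∈ C := hmul _ hg1 _ hh hg2 hH
        have h6 : g * (h * p) = g * h * p := by group
        rw [h6, h2 _ h5, h4, h2 _ h3]
        exact add_comm _ _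
    · have h3 : lT K a g v = v + fun x : a × P => v (x.1, g * x.2) := rfl
      rw [h3, Matrix.add_vecMul, h1, trans_mem hM h1, add_zero]
  let N : kerC M C →ₗ[K] kerC M C' :=
    ((lT K a g).comp (kerC M C).subtype).codRestrict _ fun v => hmaps v.1 v.2
  have hker : Module.finrank K (LinearMap.ker N) ≤ Module.finrank K (kerC M C') := by
    have hk : ∀ x : LinearMap.ker N, ((x : kerC M C) : a × P → K) ∈ kerC M C' := by
      rintro ⟨⟨v, h2, h1⟩, hx⟩
      have h0 : ∀ i p, v (i, g * p) = v (i, p) := by
        intro i p
        have h3 : (N ⟨v, h2, h1⟩ : a × P → K) = 0 := by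
          rw [LinearMap.mem_ker.1 hx]
          rfl
        have h4 : v (i, p) + v (i, g * p) = 0 := congrFun h3 (i, p)
        have h5 := CharTwo.add_self_eq_zero (v (i, p))
        exact (add_left_cancel (h5.trans h4.symm)).symm
      refine ⟨fun h hh i p => ?_, h1⟩
      change v (i, h * p) = v (i, p)
      by_cases hH : h ∈ C
      · exact h2 h hH i p
      · have h3 : h * g⁻¹ ∈ C := hmul _ hh _ (C'.inv_mem hg1) hH hgi
        have h4 : h * p = h * g⁻¹ * (g * p) := by group
        rw [h4, h2 _ h3, h0]
    let N' : LinearMap.ker N →ₗ[K] kerC M C' :=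
      ((kerC M C).subtype.comp (LinearMap.ker N).subtype).codRestrict _ hk
    refine LinearMap.finrank_le_finrank_of_injective (f := N') ?_
    intro x y hxy
    have := congrArg Subtype.val hxy
    exact Subtype.ext (Subtype.ext this)
  have h1 := LinearMap.finrank_range_add_finrank_ker N
  have h2 := Submodule.finrank_le (LinearMap.range N)
  omega

/-- **the chain** -/
theorem ker_le [CharP K 2] {M : Matrix (a × P) (c × P) K} (hM : LInv M) (hP : IsPGroup 2 P) (C : Subgroup P) :
    Module.finrank K (kerC M ⊥) ≤ Nat.card C * Module.finrank K (kerC M C) := by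
  have h2 : Fact (Nat.Prime 2) := ⟨Nat.prime_two⟩
  obtain ⟨n, hn⟩ := IsPGroup.iff_card.1 (hP.to_subgroup C)
  have key : ∀ m ≤ n, ∃ D : Subgroup C, Nat.card D = 2 ^ m ∧
      Module.finrank K (kerC M ⊥) ≤ 2 ^ m * Module.finrank K (kerC M (D.map C.subtype)) := by
    intro m
    induction m with
    | zero =>
      intro _
      refine ⟨⊥, by simp, ?_⟩
      rw [Subgroup.map_bot, pow_zero, one_mul]
    | succ m ih =>
      intro hm
      obtain ⟨D, hD, hD'⟩ := ih (by omega)
      obtain ⟨D', h1, h3⟩ := Sylow.exists_subgroup_card_pow_succ (p := 2) (n := m)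
        (by rw [hn]; exact pow_dvd_pow 2 hm) hD
      refine ⟨D', h1, hD'.trans ?_⟩
      have hcard : ∀ D : Subgroup C, Nat.card (D.map C.subtype) = Nat.card D := fun D =>
        (Nat.card_congr (D.equivMapOfInjective _ C.subtype_injective).toEquiv).symm
      have h4 := step hM (Subgroup.map_mono h3 : D.map C.subtype ≤ D'.map C.subtype)
        (by rw [hcard, hcard, h1, hD, pow_succ]; ring)
      calc 2 ^ m * Module.finrank K (kerC M (D.map C.subtype))
          ≤ 2 ^ m * (2 * Module.finrank K (kerC M (D'.map C.subtype))) := Nat.mul_le_mul_left _ h4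
        _ = 2 ^ (m + 1) * Module.finrank K (kerC M (D'.map C.subtype)) := by rw [pow_succ]; ring
  obtain ⟨D, hD, hD'⟩ := key n le_rfl
  have hD2 : D = ⊤ := Subgroup.eq_top_of_card_eq D (by rw [hD, hn])
  rw [hD2, ← MonoidHom.range_eq_map, Subgroup.range_subtype] at hD'
  rwa [hn]

/-- the dimension of the space of the invariant vectors -/
theorem inv_le (C : Subgroup P) :
    Nat.card C * Module.finrank K (invC K a C) ≤ Fintype.card a * Fintype.card P := by
  classical
  let Q := Quotient (QuotientGroup.rightRel C)
  have hQ : Nat.card Q = C.index :=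
    Nat.card_congr (QuotientGroup.quotientRightRelEquivQuotientLeftRel C)
  let f : invC K a C →ₗ[K] (a × Q → K) :=
    { toFun := fun v x => v.1 (x.1, x.2.out)
      map_add' := fun _ _ => rfl
      map_smul' := fun _ _ => rfl }
  have hf : Function.Injective f := by
    intro v w h
    refine Subtype.ext (funext fun x => ?_)
    obtain ⟨i, p⟩ := x
    have h1 : v.1 (i, (Quotient.mk _ p : Q).out) = w.1 (i, (Quotient.mk _ p : Q).out) :=
      congrFun h (i, (Quotient.mk _ p : Q))
    have h2 : QuotientGroup.rightRel C (Quotient.mk _ p : Q).out p :=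
      Quotient.exact (Quotient.out_eq _)
    rw [QuotientGroup.rightRel_apply] at h2
    have h3 : p = p * ((Quotient.mk _ p : Q).out)⁻¹ * (Quotient.mk _ p : Q).out := by group
    rw [h3, v.2 _ h2, w.2 _ h2, h1]
  have h1 := LinearMap.finrank_le_finrank_of_injective hf
  rw [Module.finrank_fintype_fun_eq_card, Fintype.card_prod, ← Nat.card_eq_fintype_card (α := Q), hQ] at h1
  calc Nat.card C * Module.finrank K (invC K a C) ≤ Nat.card C * (Fintype.card a * C.index) :=
        Nat.mul_le_mul_left _ h1
    _ = Fintype.card a * (Nat.card C * C.index) := by ring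
    _ = Fintype.card a * Fintype.card P := by rw [C.card_mul_index, Nat.card_eq_fintype_card]

/-- **Lower bound for the rank**: if `f` is an injective linear map from a space of functions into the invariant vectors
and `v ↦ f v * M` is injective, then the rank of `M` is at least `|C|` times the dimension. -/
theorem rank_ge [Fintype c] [CharP K 2] {M : Matrix (a × P) (c × P) K} (hM : LInv M) (hP : IsPGroup 2 P)
    (C : Subgroup P) {U : Type} [AddCommGroup U] [Module K U] [FiniteDimensional K U] (f : U →ₗ[K] (a × P → K))
    (hf : ∀ u, f u ∈ invC K a C) (hinj : ∀ u, Matrix.vecMul (f u) M = 0 → u = 0) :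
    Nat.card C * Module.finrank K U ≤ M.rank := by
  classical
  -- rank of `M` as the rank of the row action
  have hrk : M.rank + Module.finrank K (kerC M ⊥) = Fintype.card a * Fintype.card P := by
    have h1 := LinearMap.finrank_range_add_finrank_ker M.vecMulLinear
    have h2 : Module.finrank K (LinearMap.range M.vecMulLinear) = M.rank := by
      have h3 : M.vecMulLinear = M.transpose.mulVecLin := by
        refine LinearMap.ext fun v => ?_
        rw [Matrix.vecMulLinear_apply, Matrix.mulVecLin_apply, Matrix.mulVec_transpose]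
      rw [← Matrix.rank_transpose M, Matrix.rank, h3]
    have h3 : kerC M ⊥ = LinearMap.ker M.vecMulLinear := by
      ext v
      rw [mem_kerC, LinearMap.mem_ker, Matrix.vecMulLinear_apply]
      refine ⟨fun h => h.2, fun h => ⟨fun g hg i p => ?_, h⟩⟩
      rw [Subgroup.mem_bot.1 hg, one_mul]
    rw [h2, Module.finrank_fintype_fun_eq_card, Fintype.card_prod] at h1
    rw [h3, h1]
  have hk := ker_le hM hP C
  have hI := inv_le (K := K) (a := a) C
  -- `U` and the kernel are independent in the invariant vectors
  have hd : Module.finrank K U + Module.finrank K (kerC M C) ≤ Module.finrank K (invC K a C) := by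
    let f' : U →ₗ[K] invC K a C := f.codRestrict _ hf
    let k' : kerC M C →ₗ[K] invC K a C := Submodule.inclusion (fun v hv => hv.1)
    have h1 : Function.Injective (f'.coprod k') := by
      rw [injective_iff_map_eq_zero]
      rintro ⟨u, v⟩ h
      rw [LinearMap.coprod_apply] at h
      have h2 : f u + (v : a × P → K) = 0 := congrArg Subtype.val h
      have h3 : Matrix.vecMul (f u) M = 0 := by
        have h4 := congrArg (fun w => Matrix.vecMul w M) h2
        simp only [Matrix.add_vecMul, Matrix.zero_vecMul] at h4
        rwa [v.2.2, add_zero] at h4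
      have hu := hinj u h3
      rw [hu, map_zero, zero_add] at h2
      exact Prod.ext hu (Subtype.ext h2)
    have h2 := LinearMap.finrank_le_finrank_of_injective h1
    rwa [Module.finrank_prod] at h2
  have h5 : Nat.card C * Module.finrank K U + Nat.card C * Module.finrank K (kerC M C) ≤
      Fintype.card a * Fintype.card P := by
    rw [← mul_add]
    exact (Nat.mul_le_mul_left _ hd).trans hI
  omega

end Pool.Agent.H20.GR
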