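import Pool.Agent.H4.Atiyah.Defs
import Pool.Agent.H20.GR.Step

/-!
# Growth: injectivity over the group ring of a group with boxes gives large ranks over finite two-groups
-/

set_option autoImplicit false
set_option linter.unusedSectionVars false

open Finset

namespace Pool.Agent.H20.GR

open Pool.Agent.H4.Atiyah

/-- `G` has boxes: finite index subgroups `B` with almost invariant fundamental domains `E` (`G = B × E`), which contain
normal subgroups `W` of 2-power index -/
def FBox (G : Type) [Group G] : Prop :=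
  ∀ (S : Finset G) (ε : ℝ), 0 < ε → ∃ (W B : Subgroup G) (_ : W.Normal) (E E' : Finset G), W ≤ B ∧ Finite (G ⧸ W) ∧
    IsPGroup 2 (G ⧸ W) ∧ Function.Bijective (fun x : B × E => (x.1 : G) * x.2) ∧ E' ⊆ E ∧
    (∀ e ∈ E', ∀ s ∈ S, e * s ∈ E) ∧ (1 - ε) * E.card ≤ E'.card

/-- the other form of `FBox` -/
theorem FBox.of_filter {G : Type} [Group G] (h : ∀ (S : Finset G) (ε : ℝ), 0 < ε →
    ∃ (W B : Subgroup G) (_ : W.Normal) (E D : Finset G), W ≤ B ∧ Finite (G ⧸ W) ∧
    IsPGroup 2 (G ⧸ W) ∧ Function.Bijective (fun x : B × E => (x.1 : G) * x.2) ∧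
    (∀ e ∈ E, ∀ s ∈ S, e * s ∉ E → e ∈ D) ∧ ((D.card : ℕ) : ℝ) ≤ ε * E.card) : FBox G := by
  classical
  intro S ε hε
  obtain ⟨W, B, hW, E, D, h1, h2, h3, h4, h5, h6⟩ := h S ε hε
  refine ⟨W, B, hW, E, E \ D, h1, h2, h3, h4, Finset.sdiff_subset, fun e he s hs => ?_, ?_⟩
  · by_contra hcon
    exact (Finset.mem_sdiff.1 he).2 (h5 e (Finset.mem_sdiff.1 he).1 s hs hcon)
  · have h7 : E.card ≤ (E \ D).card + D.card := by
      have h8 := Finset.card_le_card (Finset.subset_union_left (s₁ := E) (s₂ := D))
      rw [← Finset.sdiff_union_self_eq_union] at h8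
      exact h8.trans (Finset.card_union_le _ _)
    have h8 : (E.card : ℝ) ≤ (E \ D).card + D.card := by exact_mod_cast h7
    linarith

section

variable {K : Type} [Field K] {a c : Type} [Fintype a]

theorem linv_op {P : Type} [Group P] (A : Matrix a c (MonoidAlgebra K P)) : LInv (op A) := by
  intro g i p j q
  change (A i j).coeff ((g * p)⁻¹ * (g * q)) = (A i j).coeff (p⁻¹ * q)
  congr 1
  group

/-- the row action of the operator of a matrix over the group ring of `H` at a finite level -/
theorem vecMul_op {H P : Type} [Group H] [Group P] [Fintype P] (π : H →* P) (A : Matrix a c (MonoidAlgebra K H))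
    (v : a × P → K) (j : c) (q : P) :
    Matrix.vecMul v (op (A.map (MonoidAlgebra.mapDomainRingHom K π))) (j, q) =
      ∑ i, (A i j).coeff.sum fun h k => v (i, q * (π h)⁻¹) * k := by
  classical
  have h1 : Matrix.vecMul v (op (A.map (MonoidAlgebra.mapDomainRingHom K π))) (j, q) =
      ∑ i, ∑ p, v (i, p) * (MonoidAlgebra.mapDomainRingHom K π (A i j)).coeff (p⁻¹ * q) := by
    change ∑ x : a × P, _ = _
    rw [Fintype.sum_prod_type]
    rfl
  rw [h1]
  refine Finset.sum_congr rfl fun i _ => ?_
  generalize A i j = x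
  induction x using MonoidAlgebra.induction_linear with
  | zero => simp
  | add x y hx hy =>
    rw [map_add, MonoidAlgebra.coeff_add, MonoidAlgebra.coeff_add, Finsupp.sum_add_index' (by simp)
      (fun h k l => by ring), ← hx, ← hy, ← Finset.sum_add_distrib]
    exact Finset.sum_congr rfl fun p _ => by rw [Finsupp.add_apply]; ring
  | single h k =>
    rw [MonoidAlgebra.coeff_single, Finsupp.sum_single_index (by ring)]
    rw [Finset.sum_eq_single (q * (π h)⁻¹)]
    · simp
    · intro p _ hp
      have h2 : π h ≠ p⁻¹ * q := fun h3 => hp (by rw [h3]; group)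
      simp [h2]
    · simp

/-- the coefficients of a product of a row and a matrix over the group ring -/
theorem coeff_vecMul {H G : Type} [Group H] [Group G] (φ : H →* G) (A : Matrix a c (MonoidAlgebra K H))
    (v : a → MonoidAlgebra K G) (j : c) (g : G) :
    (Matrix.vecMul v (A.map (MonoidAlgebra.mapDomainRingHom K φ)) j).coeff g =
      ∑ i, (A i j).coeff.sum fun h k => (v i).coeff (g * (φ h)⁻¹) * k := by
  classical
  have h1 : Matrix.vecMul v (A.map (MonoidAlgebra.mapDomainRingHom K φ)) j =
      ∑ i, v i * MonoidAlgebra.mapDomainRingHom K φ (A i j) := rfl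
  rw [h1, MonoidAlgebra.coeff_sum, Finsupp.finsetSum_apply]
  refine Finset.sum_congr rfl fun i _ => ?_
  generalize A i j = x
  induction x using MonoidAlgebra.induction_linear with
  | zero => simp
  | add x y hx hy =>
    rw [map_add, mul_add, MonoidAlgebra.coeff_add, MonoidAlgebra.coeff_add, Finsupp.sum_add_index' (by simp)
      (fun h k l => by ring), ← hx, ← hy, Finsupp.add_apply]
  | single h k =>
    rw [MonoidAlgebra.coeff_single, Finsupp.sum_single_index (by ring)]
    simp

end

section

variable {G : Type} [Group G] {B : Subgroup G} {E : Finset G}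

/-- the component in the fundamental domain -/
noncomputable def eOf (hE : Function.Bijective (fun x : B × E => (x.1 : G) * x.2)) (g : G) : G :=
  ((Equiv.ofBijective _ hE).symm g).2

variable (hE : Function.Bijective (fun x : B × E => (x.1 : G) * x.2))

theorem eOf_mem (g : G) : eOf hE g ∈ E := ((Equiv.ofBijective _ hE).symm g).2.2

theorem eOf_spec (g : G) : ∃ b ∈ B, g = b * eOf hE g :=
  ⟨_, ((Equiv.ofBijective _ hE).symm g).1.2, ((Equiv.ofBijective _ hE).apply_symm_apply g).symm⟩

include hE in
theorem eOf_unique {b b' e e' : G} (hb : b ∈ B) (hb' : b' ∈ B) (he : e ∈ E) (he' : e' ∈ E) (h : b * e = b' * e') :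
    b = b' ∧ e = e' := by
  have h1 := hE.1 (a₁ := (⟨b, hb⟩, ⟨e, he⟩)) (a₂ := (⟨b', hb'⟩, ⟨e', he'⟩)) h
  exact ⟨congrArg (fun x => (x.1 : G)) h1, congrArg (fun x => (x.2 : G)) h1⟩

theorem eOf_mul {b : G} (hb : b ∈ B) (g : G) : eOf hE (b * g) = eOf hE g := by
  obtain ⟨b1, hb1, h1⟩ := eOf_spec hE (b * g)
  obtain ⟨b2, hb2, h2⟩ := eOf_spec hE g
  have h3 : b1 * eOf hE (b * g) = (b * b2) * eOf hE g := by rw [← h1, mul_assoc, ← h2]
  exact (eOf_unique hE hb1 (B.mul_mem hb hb2) (eOf_mem hE _) (eOf_mem hE _) h3).2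

theorem eOf_self {e : G} (he : e ∈ E) : eOf hE e = e := by
  obtain ⟨b, hb, h⟩ := eOf_spec hE e
  have h1 : b * eOf hE e = 1 * e := by rw [← h, one_mul]
  exact (eOf_unique hE hb B.one_mem (eOf_mem hE _) he h1).2

include hE in
theorem index_eq : B.index = E.card := by
  classical
  have h1 : Nat.card (Quotient (QuotientGroup.rightRel B)) = B.index :=
    Nat.card_congr (QuotientGroup.quotientRightRelEquivQuotientLeftRel B)
  rw [← h1, ← Nat.card_eq_finsetCard]
  refine (Nat.card_congr (Equiv.ofBijective (fun e : E => (Quotient.mk _ (e : G) :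
    Quotient (QuotientGroup.rightRel B))) ⟨?_, ?_⟩)).symm
  · rintro ⟨e, he⟩ ⟨e', he'⟩ h
    have h2 : QuotientGroup.rightRel B e e' := Quotient.exact h
    rw [QuotientGroup.rightRel_apply] at h2
    have h3 : e' * e⁻¹ * e = 1 * e' := by group
    exact Subtype.ext (eOf_unique hE h2 B.one_mem he he' h3).2
  · intro x
    induction x using Quotient.inductionOn with
    | _ g =>
    obtain ⟨b, hb, h⟩ := eOf_spec hE g
    refine ⟨⟨eOf hE g, eOf_mem hE g⟩, Quotient.sound ?_⟩
    change QuotientGroup.rightRel B _ _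
    rw [QuotientGroup.rightRel_apply]
    have h2 : g * (eOf hE g)⁻¹ = b := by
      rw [mul_inv_eq_iff_eq_mul]
      exact h
    rw [h2]
    exact hb

end

section

variable {G : Type} [Group G] {W B : Subgroup G} [W.Normal] {E E' : Finset G}

theorem eOf_out (hWB : W ≤ B) (hE : Function.Bijective (fun x : B × E => (x.1 : G) * x.2)) {x : G ⧸ W} {g : G}
    (h : (g : G ⧸ W) = x) : eOf hE x.out = eOf hE g := by
  have h1 : ((x.out : G) : G ⧸ W) = (g : G ⧸ W) := by rw [QuotientGroup.out_eq', h]
  have h2 : g⁻¹ * x.out ∈ W := QuotientGroup.eq.1 h1.symm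
  have h3 : x.out * g⁻¹ ∈ W := by
    have h4 := Subgroup.Normal.conj_mem (inferInstance : W.Normal) _ h2 g
    have h5 : g * (g⁻¹ * x.out) * g⁻¹ = x.out * g⁻¹ := by group
    rwa [h5] at h4
  have h6 : x.out = x.out * g⁻¹ * g := by group
  rw [h6, eOf_mul hE (hWB h3)]

variable {K : Type} [Field K] {r : ℕ}

/-- extension by zero -/
noncomputable def ext0 (u : Fin r → E' → K) (t : Fin r) (g : G) : K :=
  open Classical in if h : g ∈ E' then u t ⟨g, h⟩ else 0

theorem ext0_mem (u : Fin r → E' → K) (t : Fin r) {g : G} (h : g ∈ E') : ext0 u t g = u t ⟨g, h⟩ := by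
  unfold ext0
  rw [dif_pos h]

theorem ext0_not (u : Fin r → E' → K) (t : Fin r) {g : G} (h : g ∉ E') : ext0 u t g = 0 := by
  unfold ext0
  rw [dif_neg h]

/-- the element of the group ring -/
noncomputable def extM (u : Fin r → E' → K) (t : Fin r) : MonoidAlgebra K G :=
  MonoidAlgebra.ofCoeff (Finsupp.onFinset E' (ext0 u t) fun g hg => by
    by_contra h
    exact hg (ext0_not u t h))

theorem extM_coeff (u : Fin r → E' → K) (t : Fin r) (g : G) : (extM u t).coeff g = ext0 u t g := rfl

end

/-- **Growth.** If `r` rows and a set of columns of `A` give a matrix which is injective on the row vectors over the group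
ring of `G`, then the rank of `A` over large finite two-groups `P × P'` is at least `(r - ε) |P × P'|`. -/
theorem growth_gen {H G : Type} [Group H] [Group G] (φ : H →* G) (hG : FBox G) {K : Type} [Field K] [CharP K 2]
    {a c c' : Type} [Fintype a] [Fintype c] (A : Matrix a c (MonoidAlgebra K H)) {r : ℕ} (rows : Fin r → a)
    (cols : c' → c)
    (hinj : ∀ v : Fin r → MonoidAlgebra K G,
      Matrix.vecMul v ((A.submatrix rows cols).map (MonoidAlgebra.mapDomainRingHom K φ)) = 0 → v = 0)
    {ε : ℝ} (hε : 0 < ε) :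
    ∃ (P : Type) (_ : Group P) (_ : Fintype P), IsPGroup 2 P ∧ ∃ π : H →* P,
      ∀ (P' : Type) [Group P'] [Fintype P'], IsPGroup 2 P' → ∀ π' : H →* P',
        ((r : ℝ) - ε) * Fintype.card (P × P') ≤
          ((op (A.map (MonoidAlgebra.mapDomainRingHom K (π.prod π')))).rank : ℝ) := by
  classical
  obtain ⟨W, B, hW, E, E', hWB, hfin, hPG, hE, hEE, hS, hcard⟩ := hG
    ((Finset.univ : Finset (a × c)).biUnion fun x => (A x.1 x.2).coeff.support.image φ) (ε / (r + 1)) (by positivity)
  refine ⟨G ⧸ W, inferInstance, Fintype.ofFinite _, hPG, (QuotientGroup.mk' W).comp φ, fun P' _ _ hP' π' => ?_⟩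
  set P := G ⧸ W with hPdef
  let _ : Fintype P := Fintype.ofFinite _
  set π := (QuotientGroup.mk' W).comp φ with hπ
  have hS' : ∀ i j, ∀ h ∈ (A i j).coeff.support, ∀ e ∈ E', e * φ h ∈ E := fun i j h hh e he =>
    hS e he _ (Finset.mem_biUnion.2 ⟨(i, j), Finset.mem_univ _, Finset.mem_image_of_mem _ hh⟩)
  let C : Subgroup (P × P') := (B.map (QuotientGroup.mk' W)).comap (MonoidHom.fst P P')
  have hP1 : IsPGroup 2 (P × P') := by
    rintro ⟨x, y⟩
    obtain ⟨k1, hk1⟩ := hPG x
    obtain ⟨k2, hk2⟩ := hP' y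
    refine ⟨k1 + k2, ?_⟩
    rw [Prod.pow_mk, pow_add, pow_mul, hk1, one_pow, mul_comm, pow_mul, hk2, one_pow]
    rfl
  -- the linear map
  let f : (Fin r → E' → K) →ₗ[K] (a × (P × P') → K) :=
    { toFun := fun u x => ∑ t, if rows t = x.1 then ext0 u t (eOf hE x.2.1.out) else 0
      map_add' := fun u v => by
        funext x
        rw [Pi.add_apply, ← Finset.sum_add_distrib]
        refine Finset.sum_congr rfl fun t _ => ?_
        split_ifs with h
        · by_cases h1 : eOf hE x.2.1.out ∈ E'
          · rw [ext0_mem _ _ h1, ext0_mem _ _ h1, ext0_mem _ _ h1]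
            rfl
          · rw [ext0_not _ _ h1, ext0_not _ _ h1, ext0_not _ _ h1, add_zero]
        · rw [add_zero]
      map_smul' := fun k v => by
        funext x
        rw [RingHom.id_apply, Pi.smul_apply, smul_eq_mul, Finset.mul_sum]
        refine Finset.sum_congr rfl fun t _ => ?_
        split_ifs with h
        · by_cases h1 : eOf hE x.2.1.out ∈ E'
          · rw [ext0_mem _ _ h1, ext0_mem _ _ h1]
            rfl
          · rw [ext0_not _ _ h1, ext0_not _ _ h1, mul_zero]
        · rw [mul_zero] }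
  have hf : ∀ u, f u ∈ invC K a C := by
    intro u y hy i x
    obtain ⟨b, hb, hby⟩ := hy
    change (∑ t, if rows t = i then ext0 u t (eOf hE (y.1 * x.1).out) else 0) =
      ∑ t, if rows t = i then ext0 u t (eOf hE x.1.out) else 0
    have h1 : ((b * x.1.out : G) : G ⧸ W) = y.1 * x.1 := by
      rw [QuotientGroup.mk_mul, QuotientGroup.out_eq']
      exact congrArg (· * x.1) hby
    rw [eOf_out hWB hE h1, eOf_mul hE hb]
  have hker : ∀ u, Matrix.vecMul (f u) (op (A.map (MonoidAlgebra.mapDomainRingHom K (π.prod π')))) = 0 → u = 0 := by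
    intro u hu
    have h1 : (fun t => extM u t) = 0 := by
      refine hinj _ (funext fun l => ?_)
      refine MonoidAlgebra.coeff_injective (Finsupp.ext fun g => ?_)
      rw [coeff_vecMul, Pi.zero_apply, MonoidAlgebra.coeff_zero, Finsupp.zero_apply]
      by_cases hg : g ∈ E
      · have h2 := congrFun hu (cols l, ((g : G ⧸ W), 1))
        rw [vecMul_op, Pi.zero_apply] at h2
        rw [← h2]
        have h3 : ∀ i, ((A i (cols l)).coeff.sum fun h k =>
            f u (i, ((g : G ⧸ W), (1 : P')) * (π.prod π' h)⁻¹) * k) =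
            ∑ t, if rows t = i then ((A i (cols l)).coeff.sum fun h k =>
              ext0 u t (eOf hE (g * (φ h)⁻¹)) * k) else 0 := by
          intro i
          rw [Finsupp.sum]
          have h4 : ∀ h, f u (i, ((g : G ⧸ W), (1 : P')) * (π.prod π' h)⁻¹) =
              ∑ t, if rows t = i then ext0 u t (eOf hE (g * (φ h)⁻¹)) else 0 := by
            intro h
            change (∑ t, if rows t = i then ext0 u t (eOf hE ((g : G ⧸ W) * ((φ h : G) : G ⧸ W)⁻¹).out) else 0) = _
            have h5 : ((g * (φ h)⁻¹ : G) : G ⧸ W) = (g : G ⧸ W) * ((φ h : G) : G ⧸ W)⁻¹ := rfl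
            rw [eOf_out hWB hE h5]
          simp_rw [h4, Finset.sum_mul]
          rw [Finset.sum_comm]
          refine Finset.sum_congr rfl fun t _ => ?_
          split_ifs with h
          · rfl
          · simp
        rw [Finset.sum_congr rfl fun i _ => h3 i, Finset.sum_comm]
        refine Finset.sum_congr rfl fun t _ => ?_
        rw [Finset.sum_ite_eq, if_pos (Finset.mem_univ _)]
        refine Finset.sum_congr rfl fun h hh => ?_
        change (extM u t).coeff (g * (φ h)⁻¹) * _ = ext0 u t (eOf hE (g * (φ h)⁻¹)) * _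
        congr 1
        rw [extM_coeff]
        obtain ⟨b, hb, hx⟩ := eOf_spec hE (g * (φ h)⁻¹)
        by_cases he : eOf hE (g * (φ h)⁻¹) ∈ E'
        · have h6 := hS' _ _ h hh _ he
          have h7 : b * (eOf hE (g * (φ h)⁻¹) * φ h) = 1 * g := by
            rw [← mul_assoc, ← hx]
            group
          have h8 := (eOf_unique hE hb B.one_mem h6 hg h7).1
          rw [h8, one_mul] at hx
          rw [← hx]
        · rw [ext0_not _ _ he]
          refine ext0_not _ _ fun h9 => he ?_
          rwa [eOf_self hE (hEE h9)]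
      · refine Finset.sum_eq_zero fun t _ => Finset.sum_eq_zero fun h hh => ?_
        change (extM u t).coeff (g * (φ h)⁻¹) * _ = 0
        rw [extM_coeff, ext0_not, zero_mul]
        intro h9
        have h10 := hS' _ _ h hh _ h9
        rw [inv_mul_cancel_right] at h10
        exact hg h10
    funext t x
    have h2 := congrArg (fun z : MonoidAlgebra K G => z.coeff x) (congrFun h1 t)
    change (extM u t).coeff x = 0 at h2
    rw [extM_coeff, ext0_mem _ _ x.2] at h2
    exact h2
  have hrk := rank_ge (linv_op _) hP1 C f hf hker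
  have hidx : C.index = E.card := by
    have h1 : C.index = (B.map (QuotientGroup.mk' W)).index :=
      Subgroup.index_comap_of_surjective _ (fun x => ⟨(x, 1), rfl⟩)
    rw [h1, Subgroup.index_map_eq _ (QuotientGroup.mk'_surjective W) (by rw [QuotientGroup.ker_mk']; exact hWB),
      index_eq hE]
  have hc1 : (Nat.card C : ℝ) * E.card = Fintype.card (P × P') := by
    have h1 := C.card_mul_index
    rw [hidx, Nat.card_eq_fintype_card (α := P × P')] at h1
    exact_mod_cast h1
  have hdim : Module.finrank K (Fin r → E' → K) = r * E'.card := by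
    rw [Module.finrank_pi_fintype]
    simp
  rw [hdim] at hrk
  have hrk' : (Nat.card C : ℝ) * (r * E'.card) ≤
      ((op (A.map (MonoidAlgebra.mapDomainRingHom K (π.prod π')))).rank : ℝ) := by exact_mod_cast hrk
  refine le_trans ?_ hrk'
  rw [← hc1]
  have h1 : ((r : ℝ) - ε) * E.card ≤ r * E'.card := by
    have h2 : (r : ℝ) * ((1 - ε / (r + 1)) * E.card) ≤ r * E'.card :=
      mul_le_mul_of_nonneg_left hcard (Nat.cast_nonneg _)
    refine le_trans ?_ h2
    have h3 : (r : ℝ) * (ε / (r + 1)) ≤ ε := by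
      rw [mul_div_assoc', div_le_iff₀ (by positivity)]
      nlinarith
    have h4 : (0 : ℝ) ≤ E.card := Nat.cast_nonneg _
    nlinarith
  have h5 : (0 : ℝ) ≤ Nat.card C := Nat.cast_nonneg _
  calc ((r : ℝ) - ε) * (Nat.card C * E.card) = Nat.card C * (((r : ℝ) - ε) * E.card) := by ring
    _ ≤ Nat.card C * (r * E'.card) := mul_le_mul_of_nonneg_left h1 h5

/-- **Growth.** If `r` rows and `r` columns of `A` give a matrix which is injective on the row vectors over the group
ring of `G`, then the rank of `A` over large finite two-groups `P × P'` is at least `(r - ε) |P × P'|`. -/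
theorem growth {H G : Type} [Group H] [Group G] (φ : H →* G) (hG : FBox G) {K : Type} [Field K] [CharP K 2]
    {a c : Type} [Fintype a] [Fintype c] (A : Matrix a c (MonoidAlgebra K H)) {r : ℕ} (rows : Fin r → a)
    (cols : Fin r → c)
    (hinj : ∀ v : Fin r → MonoidAlgebra K G,
      Matrix.vecMul v ((A.submatrix rows cols).map (MonoidAlgebra.mapDomainRingHom K φ)) = 0 → v = 0)
    {ε : ℝ} (hε : 0 < ε) :
    ∃ (P : Type) (_ : Group P) (_ : Fintype P), IsPGroup 2 P ∧ ∃ π : H →* P,
      ∀ (P' : Type) [Group P'] [Fintype P'], IsPGroup 2 P' → ∀ π' : H →* P',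
        ((r : ℝ) - ε) * Fintype.card (P × P') ≤
          ((op (A.map (MonoidAlgebra.mapDomainRingHom K (π.prod π')))).rank : ℝ) :=
  growth_gen φ hG A rows cols hinj hε

/-- **Growth**, with all columns. -/
theorem growth_rows {H G : Type} [Group H] [Group G] (φ : H →* G) (hG : FBox G) {K : Type} [Field K] [CharP K 2]
    {a c : Type} [Fintype a] [Fintype c] (A : Matrix a c (MonoidAlgebra K H)) {r : ℕ} (rows : Fin r → a)
    (hinj : ∀ v : Fin r → MonoidAlgebra K G,
      Matrix.vecMul v ((A.submatrix rows id).map (MonoidAlgebra.mapDomainRingHom K φ)) = 0 → v = 0)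
    {ε : ℝ} (hε : 0 < ε) :
    ∃ (P : Type) (_ : Group P) (_ : Fintype P), IsPGroup 2 P ∧ ∃ π : H →* P,
      ∀ (P' : Type) [Group P'] [Fintype P'], IsPGroup 2 P' → ∀ π' : H →* P',
        ((r : ℝ) - ε) * Fintype.card (P × P') ≤
          ((op (A.map (MonoidAlgebra.mapDomainRingHom K (π.prod π')))).rank : ℝ) :=
  growth_gen φ hG A rows id hinj hε

end Pool.Agent.H20.GR
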